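import Pool.Agent.Lib.H45Glue.ESF

/-!
# Copies with prescribed sides inside the pairs which avoid two rooted graphs
-/

namespace Pool.Agent.Lib.H45Glue2

open SimpleGraph Finset Pool.Agent.Lib.Helper15.Glue Pool.Agent.Lib.H45Glue

variable {V₁ V₂ : Type*} {H₁ : SimpleGraph V₁} {u : V₁} {H₂ : SimpleGraph V₂} {v : V₂}

/-- The copy `c` puts exactly the vertices of `T` into `P`. -/
def Right {W V : Type*} {H : SimpleGraph W} {G : SimpleGraph V} (P : Set V) (T : Set W)
    (c : Copy H G) : Prop := ∀ w, (c w ∈ P ↔ w ∈ T)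

/-- Every graph on `n` vertices with a two-colouring avoiding the two rooted graphs, and without
a copy of `H` which puts exactly the vertices of `T` into `P`, has `O(f(n))` edges. -/
def Rel (f : ℕ → ℕ) (H₁ : SimpleGraph V₁) (u : V₁) (H₂ : SimpleGraph V₂) (v : V₂) {W : Type*}
    (H : SimpleGraph W) (T : Set W) : Prop :=
  ∃ C : ℕ, ∀ (n : ℕ) (G : SimpleGraph (Fin n)) (P : Set (Fin n)), Avoids H₁ u H₂ v G P →
    (∀ c : Copy H G, ¬ Right P T c) → G.edgeSet.ncard ≤ C * f n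

variable {f : ℕ → ℕ}

lemma avoids_induce {V : Type*} {G : SimpleGraph V} {P : Set V} (h : Avoids H₁ u H₂ v G P)
    (Z : Set V) : Avoids H₁ u H₂ v (G.induce Z) {w : Z | w.1 ∈ P} :=
  ⟨fun a b hab => h.1 a.1 b.1 hab, fun c => h.2.1 ((Copy.induce G Z).comp c),
    fun c => h.2.2 ((Copy.induce G Z).comp c)⟩

/-- The bound of `Rel` on an arbitrary vertex type. -/
lemma Rel.bound {W : Type*} {H : SimpleGraph W} {T : Set W} (h : Rel f H₁ u H₂ v H T) :
    ∃ C : ℕ, ∀ {V : Type} [Fintype V] (G : SimpleGraph V) (P : Set V), Avoids H₁ u H₂ v G P →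
      (∀ c : Copy H G, ¬ Right P T c) → G.edgeSet.ncard ≤ C * f (Fintype.card V) := by
  classical
  obtain ⟨C, hC⟩ := h
  refine ⟨C, fun {V} _ G P hP hc => ?_⟩
  set i : G ≃g G.map (Fintype.equivFin V) := SimpleGraph.Iso.map (Fintype.equivFin V) G with hi
  have h1 := hC (Fintype.card V) (G.map (Fintype.equivFin V)) (i.symm ⁻¹' P)
    ⟨fun a b hab => hP.1 _ _ (i.symm.map_adj_iff.2 hab),
      fun c => hP.2.1 (i.symm.toCopy.comp c), fun c => hP.2.2 (i.symm.toCopy.comp c)⟩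
    (fun c hr => hc (i.symm.toCopy.comp c) hr)
  rw [ncard_edgeSet] at h1 ⊢
  have h2 : #G.edgeFinset = #(G.map (Fintype.equivFin V)).edgeFinset := i.card_edgeFinset_eq
  rwa [h2]

lemma exists_sets' {W V : Type*} [Fintype W] (H : SimpleGraph W) (r : W) (G : SimpleGraph V)
    (Q : Copy H G → Prop) :
    ∃ S : V → Finset V, (∀ w, w ∉ S w) ∧ (∀ w, #(S w) ≤ Fintype.card W - 1) ∧
      ∀ w, (∃ c : Copy H G, Q c ∧ c r = w) →
        ∃ c : Copy H G, Q c ∧ c r = w ∧ ∀ x, x ≠ r → c x ∈ S w := by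
  classical
  have h : ∀ w : V, ∃ T : Finset V, w ∉ T ∧ #T ≤ Fintype.card W - 1 ∧
      ((∃ c : Copy H G, Q c ∧ c r = w) →
        ∃ c : Copy H G, Q c ∧ c r = w ∧ ∀ x, x ≠ r → c x ∈ T) := by
    intro w
    by_cases hw : ∃ c : Copy H G, Q c ∧ c r = w
    · obtain ⟨c, hQ, hc⟩ := hw
      refine ⟨(univ.erase r).image c, ?_, ?_, fun _ => ⟨c, hQ, hc, fun x hx =>
        mem_image_of_mem _ (mem_erase.2 ⟨hx, mem_univ _⟩)⟩⟩
      · intro hm
        obtain ⟨x, hx, hxw⟩ := mem_image.1 hm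
        exact (mem_erase.1 hx).1 (c.injective (hxw.trans hc.symm))
      · refine card_image_le.trans ?_
        rw [card_erase_of_mem (mem_univ _), card_univ]
    · exact ⟨∅, notMem_empty _, by simp, fun h => absurd h hw⟩
  choose S h1 h2 h3 using h
  exact ⟨S, h1, h2, h3⟩

/-- The basic inequality, with sides. -/
theorem Rel.main (hf : Adm f) {W : Type*} [Fintype W] {H : SimpleGraph W} {T : Set W} (r : W)
    (h : Rel f H₁ u H₂ v H T) :
    ∃ C : ℕ, ∀ {V : Type} [Fintype V] (G : SimpleGraph V) (P : Set V) (E : ℕ),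
      Avoids H₁ u H₂ v G P →
      (∀ Z : Set V, (∀ w ∈ Z, (w ∈ P ↔ r ∈ T) →
        ∃ c : Copy H G, Right P T c ∧ c r = w ∧ ∀ x, x ≠ r → c x ∉ Z) →
        (G.induce Z).edgeSet.ncard ≤ E) →
      G.edgeSet.ncard ≤ C * (E + f (Fintype.card V)) := by
  classical
  obtain ⟨C₀, hC₀⟩ := h.bound
  refine ⟨4 ^ Fintype.card W * (1 + C₀) + Fintype.card W, fun {V} _ G P E hA hE => ?_⟩
  obtain ⟨S, hSw, hSt, hS⟩ := exists_sets' H r G (Right P T)
  have hpos : 0 < Fintype.card W := Fintype.card_pos_iff.2 ⟨r⟩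
  set n := Fintype.card V with hn
  have hB : ∀ X : Finset V,
      #{p : V × V | p.1 ∈ goodIn S X ∧ p.2 ∈ goodIn S X ∧ G.Adj p.1 p.2} ≤
        2 * E + 2 * (C₀ * f n) := by
    intro X
    have hgood : ∀ w ∈ goodIn S X, (∃ d : Copy H G, Right P T d ∧ d r = w) →
        ∃ c : Copy H G, Right P T c ∧ c r = w ∧ ∀ x, x ≠ r → c x ∉ goodIn S X := by
      intro w hw hd
      obtain ⟨c, hR, hc, hcS⟩ := hS w hd
      refine ⟨c, hR, hc, fun x hx hxG => ?_⟩
      exact disjoint_left.1 (mem_goodIn.1 hw).2 (hcS x hx) (mem_goodIn.1 hxG).1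
    generalize goodIn S X = Y at hgood ⊢
    have h1 : #{p : V × V | p.1 ∈ Y.filter (fun w => (w ∈ P ↔ r ∈ T) →
          ∃ d : Copy H G, Right P T d ∧ d r = w) ∧
        p.2 ∈ Y.filter (fun w => (w ∈ P ↔ r ∈ T) → ∃ d : Copy H G, Right P T d ∧ d r = w) ∧
        G.Adj p.1 p.2} ≤ 2 * E := by
      refine (pairs_le_induce G _).trans (Nat.mul_le_mul_left _ ?_)
      rw [← ncard_edgeSet]
      refine hE _ fun w hw hs => ?_
      obtain ⟨hw1, hw2⟩ := mem_filter.1 (mem_coe.1 hw)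
      obtain ⟨c, hR, hc1, hc2⟩ := hgood w hw1 (hw2 hs)
      exact ⟨c, hR, hc1, fun x hx hxm => hc2 x hx (mem_filter.1 (mem_coe.1 hxm)).1⟩
    have h2 : #{p : V × V | p.1 ∈ Y.filter (fun w => ¬ ∃ d : Copy H G, Right P T d ∧ d r = w) ∧
        p.2 ∈ Y.filter (fun w => ¬ ∃ d : Copy H G, Right P T d ∧ d r = w) ∧ G.Adj p.1 p.2} ≤
        2 * (C₀ * f n) := by
      refine (pairs_le_induce G _).trans (Nat.mul_le_mul_left _ ?_)
      rw [← ncard_edgeSet]
      refine (hC₀ _ _ (avoids_induce hA _) ?_).trans ?_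
      · intro c hR
        have h3 := (c r).2
        rw [mem_coe, mem_filter] at h3
        exact h3.2 ⟨(Copy.induce G _).comp c, fun w => hR w, rfl⟩
      · refine Nat.mul_le_mul_left _ (hf.mono ?_)
        simpa using card_le_univ (Y.filter (fun w => ¬ ∃ d : Copy H G, Right P T d ∧ d r = w))
    refine le_trans (card_le_card (t := _ ∪ _) ?_) ((card_union_le _ _).trans
      (Nat.add_le_add h1 h2))
    rintro ⟨a, b⟩ hab
    simp only [mem_filter, mem_univ, true_and] at hab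
    obtain ⟨hab1, hab2, hab3⟩ := hab
    have hroot : ∀ w, (∃ d : Copy H G, Right P T d ∧ d r = w) → (w ∈ P ↔ r ∈ T) := by
      rintro w ⟨d, hR, rfl⟩
      exact hR r
    have hPab := hA.1 a b hab3
    simp only [mem_union, mem_filter, mem_univ, true_and]
    have ha' := hroot a
    have hb' := hroot b
    by_cases ha : ∃ d : Copy H G, Right P T d ∧ d r = a <;>
      by_cases hb : ∃ d : Copy H G, Right P T d ∧ d r = b <;>
      by_cases h3 : a ∈ P <;> by_cases h4 : b ∈ P <;> by_cases h5 : r ∈ T <;>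
      simp_all
  have hDc : #(univ.filter (fun p : V × V => G.Adj p.1 p.2)) = 2 * G.edgeSet.ncard := by
    rw [ncard_edgeSet, two_mul_card_edgeFinset]
  have hmain := averaging (univ.filter (fun p : V × V => G.Adj p.1 p.2)) S
    (Fintype.card W - 1) _ hSt hSw (fun X => by
      refine le_trans (card_le_card ?_) (hB X)
      intro p hp
      simp only [mem_filter, mem_univ, true_and] at hp ⊢
      exact ⟨hp.2.1, hp.2.2, hp.1⟩)
  rw [hDc, Nat.sub_add_cancel hpos] at hmain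
  have h5 : (Fintype.card W - 1) * n ≤ Fintype.card W * n :=
    Nat.mul_le_mul_right _ (Nat.sub_le _ _)
  have hln := hf.lin n
  generalize Fintype.card W = w at *
  generalize G.edgeSet.ncard = e at *
  generalize f n = y at *
  have h6 : e ≤ 4 ^ w * (E + C₀ * y) + w * n := by
    have h7 : 4 ^ w * (2 * E + 2 * (C₀ * y)) = 2 * (4 ^ w * (E + C₀ * y)) := by ring
    have h8 : 2 * (w - 1) * n = 2 * ((w - 1) * n) := by ring
    rw [h7, h8] at hmain
    omega
  refine h6.trans ?_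
  have h10 : E + C₀ * y ≤ (1 + C₀) * (E + y) := by
    nlinarith [Nat.zero_le (C₀ * E), Nat.zero_le y]
  calc 4 ^ w * (E + C₀ * y) + w * n
      ≤ 4 ^ w * ((1 + C₀) * (E + y)) + w * (E + y) := by
        refine Nat.add_le_add (Nat.mul_le_mul_left _ h10) (Nat.mul_le_mul_left _ ?_)
        omega
    _ = _ := by ring

end Pool.Agent.Lib.H45Glue2
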