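import Pool.Agent.Lib.H45Glue2.Rel

/-!
# Closure of `Rel` under separations of order at most one; blocks
-/

namespace Pool.Agent.Lib.H45Glue2

open SimpleGraph Finset Pool.Agent.Lib.Helper15.Glue Pool.Agent.Lib.H45Glue

variable {V₁ V₂ : Type*} {H₁ : SimpleGraph V₁} {u : V₁} {H₂ : SimpleGraph V₂} {v : V₂}
variable {f : ℕ → ℕ}

/-- Copies of the two sides of a separation which agree exactly where they should combine to a
copy of the whole graph. -/
lemma exists_combine' {W V : Type*} {H : SimpleGraph W} {G : SimpleGraph V} {S₁ S₂ S : Set W}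
    (hS : S₁ ∪ S₂ = S) (hcross : ∀ a ∈ S₁, ∀ b ∈ S₂, H.Adj a b → a ∈ S₂ ∨ b ∈ S₁)
    (c₁ : Copy (H.induce S₁) G) (c₂ : Copy (H.induce S₂) G)
    (h : ∀ (a : S₁) (b : S₂), c₁ a = c₂ b ↔ a.1 = b.1) {P : Set V} {T : Set W}
    (hR₁ : Right P {w : S₁ | w.1 ∈ T} c₁) (hR₂ : Right P {w : S₂ | w.1 ∈ T} c₂) :
    ∃ c : Copy (H.induce S) G, Right P {w : S | w.1 ∈ T} c := by
  classical
  have h2 : ∀ s : S, s.1 ∉ S₁ → s.1 ∈ S₂ := by
    intro s hs
    have h3 : s.1 ∈ S₁ ∪ S₂ := hS.symm.subset s.2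
    exact h3.resolve_left hs
  set f : S → V := fun s => if hs : s.1 ∈ S₁ then c₁ ⟨s.1, hs⟩ else c₂ ⟨s.1, h2 s hs⟩ with hf
  have hf1 : ∀ (s : S) (hs : s.1 ∈ S₁), f s = c₁ ⟨s.1, hs⟩ := by
    intro s hs
    simp only [hf, dif_pos hs]
  have hf2 : ∀ (s : S) (hs : s.1 ∈ S₂), f s = c₂ ⟨s.1, hs⟩ := by
    intro s hs
    by_cases hs1 : s.1 ∈ S₁
    · rw [hf1 s hs1]
      exact (h ⟨s.1, hs1⟩ ⟨s.1, hs⟩).2 rfl
    · simp only [hf, dif_neg hs1]
  refine ⟨⟨⟨f, ?_⟩, ?_⟩, ?_⟩
  · intro s t hst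
    have hst' : H.Adj s.1 t.1 := hst
    have both : (s.1 ∈ S₁ ∧ t.1 ∈ S₁) ∨ (s.1 ∈ S₂ ∧ t.1 ∈ S₂) := by
      by_cases hs1 : s.1 ∈ S₁
      · by_cases ht1 : t.1 ∈ S₁
        · exact Or.inl ⟨hs1, ht1⟩
        · have ht2 := h2 t ht1
          rcases hcross _ hs1 _ ht2 hst' with h3 | h3
          · exact Or.inr ⟨h3, ht2⟩
          · exact absurd h3 ht1
      · have hs2 := h2 s hs1
        by_cases ht2 : t.1 ∈ S₂
        · exact Or.inr ⟨hs2, ht2⟩
        · have ht1 : t.1 ∈ S₁ := by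
            by_contra h4
            exact ht2 (h2 t h4)
          rcases hcross _ ht1 _ hs2 hst'.symm with h3 | h3
          · exact absurd h3 ht2
          · exact absurd h3 hs1
    rcases both with ⟨hs, ht⟩ | ⟨hs, ht⟩
    · rw [hf1 s hs, hf1 t ht]
      exact c₁.toHom.map_adj (show (H.induce S₁).Adj ⟨s.1, hs⟩ ⟨t.1, ht⟩ from hst')
    · rw [hf2 s hs, hf2 t ht]
      exact c₂.toHom.map_adj (show (H.induce S₂).Adj ⟨s.1, hs⟩ ⟨t.1, ht⟩ from hst')
  · intro s t hst
    have hst : f s = f t := hst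
    apply Subtype.ext
    by_cases hs1 : s.1 ∈ S₁ <;> by_cases ht1 : t.1 ∈ S₁
    · rw [hf1 s hs1, hf1 t ht1] at hst
      exact Subtype.mk.inj (c₁.injective hst)
    · rw [hf1 s hs1, hf2 t (h2 t ht1)] at hst
      exact (h ⟨s.1, hs1⟩ ⟨t.1, h2 t ht1⟩).1 hst
    · rw [hf2 s (h2 s hs1), hf1 t ht1] at hst
      exact ((h ⟨t.1, ht1⟩ ⟨s.1, h2 s hs1⟩).1 hst.symm).symm
    · rw [hf2 s (h2 s hs1), hf2 t (h2 t ht1)] at hst
      exact Subtype.mk.inj (c₂.injective hst)
  · intro s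
    show f s ∈ P ↔ s.1 ∈ T
    by_cases hs1 : s.1 ∈ S₁
    · rw [hf1 s hs1]
      exact hR₁ ⟨s.1, hs1⟩
    · rw [hf2 s (h2 s hs1)]
      exact hR₂ ⟨s.1, h2 s hs1⟩

/-- Closure of `Rel` under amalgamation at a cut vertex. -/
theorem rel_cut (hf : Adm f) {W : Type*} [Finite W] {H : SimpleGraph W} {S₁ S₂ S T : Set W}
    (hS : S₁ ∪ S₂ = S) (hcross : ∀ a ∈ S₁, ∀ b ∈ S₂, H.Adj a b → a ∈ S₂ ∨ b ∈ S₁)
    {x : W} (hx1 : x ∈ S₁) (hx2 : x ∈ S₂) (hx : ∀ a, a ∈ S₁ → a ∈ S₂ → a = x)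
    (h₁ : Rel f H₁ u H₂ v (H.induce S₁) {w : S₁ | w.1 ∈ T})
    (h₂ : Rel f H₁ u H₂ v (H.induce S₂) {w : S₂ | w.1 ∈ T}) :
    Rel f H₁ u H₂ v (H.induce S) {w : S | w.1 ∈ T} := by
  classical
  have : Fintype W := Fintype.ofFinite W
  obtain ⟨C₁, hC₁⟩ := h₁.bound
  obtain ⟨C₂, hC₂⟩ := h₂.main hf ⟨x, hx2⟩
  refine ⟨C₂ * (C₁ + 1), fun n G P hA hno => ?_⟩
  have h3 := hC₂ G P (C₁ * f n) hA (by
    intro Z hZ
    refine (hC₁ (G.induce Z) _ (avoids_induce hA Z) ?_).trans (Nat.mul_le_mul_left _ ?_)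
    · intro c hRc
      have hside : ((c ⟨x, hx1⟩).1 ∈ P ↔ (⟨x, hx2⟩ : S₂) ∈ {w : S₂ | w.1 ∈ T}) :=
        hRc ⟨x, hx1⟩
      obtain ⟨d, hRd, hd, hdZ⟩ := hZ (c ⟨x, hx1⟩).1 (c ⟨x, hx1⟩).2 hside
      obtain ⟨e, he⟩ := exists_combine' hS hcross ((Copy.induce G Z).comp c) d (by
        intro a b
        have ha : ((Copy.induce G Z).comp c) a = (c a).1 := rfl
        rw [ha]
        constructor
        · intro hab
          have hb : b = ⟨x, hx2⟩ := by
            by_contra hb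
            exact hdZ b hb (hab ▸ (c a).2)
          rw [hb, hd] at hab
          have := c.injective (Subtype.ext hab)
          rw [hb, this]
        · intro hab
          have hax : a.1 = x := hx a.1 a.2 (hab ▸ b.2)
          have ha' : a = ⟨x, hx1⟩ := Subtype.ext hax
          have hb' : b = ⟨x, hx2⟩ := Subtype.ext (hab ▸ hax)
          rw [ha', hb', hd]) (P := P) (T := T) (fun w => hRc w) hRd
      exact hno e he
    · refine hf.mono ?_
      simpa using set_fintype_card_le_univ Z)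
  refine h3.trans ?_
  rw [Fintype.card_fin, mul_assoc]
  refine Nat.mul_le_mul_left _ ?_
  rw [add_mul, one_mul]

/-- Closure of `Rel` under disjoint unions. -/
theorem rel_disjoint (hf : Adm f) {W : Type*} [Finite W] {H : SimpleGraph W} {S₁ S₂ S T : Set W}
    (hS : S₁ ∪ S₂ = S) (hcross : ∀ a ∈ S₁, ∀ b ∈ S₂, ¬ H.Adj a b) (hdis : Disjoint S₁ S₂)
    (h₁ : Rel f H₁ u H₂ v (H.induce S₁) {w : S₁ | w.1 ∈ T})
    (h₂ : Rel f H₁ u H₂ v (H.induce S₂) {w : S₂ | w.1 ∈ T}) :
    Rel f H₁ u H₂ v (H.induce S) {w : S | w.1 ∈ T} := by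
  classical
  have : Fintype W := Fintype.ofFinite W
  obtain ⟨C₁, hC₁⟩ := h₁
  obtain ⟨C₂, hC₂⟩ := h₂.bound
  refine ⟨C₁ + (C₂ + Fintype.card S₁), fun n G P hA hno => ?_⟩
  rw [add_mul]
  by_cases hall : ∀ c : Copy (H.induce S₁) G, ¬ Right P {w : S₁ | w.1 ∈ T} c
  · exact (hC₁ n G P hA hall).trans (Nat.le_add_right _ _)
  · push Not at hall
    obtain ⟨c, hRc⟩ := hall
    set Z : Set (Fin n) := (Set.range c)ᶜ with hZ
    have h1 := hC₂ (G.induce Z) _ (avoids_induce hA Z) (by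
      intro d hRd
      obtain ⟨e, he⟩ := exists_combine' hS
        (fun a ha b hb hab => absurd hab (hcross a ha b hb))
        c ((Copy.induce G Z).comp d) (by
          intro a b
          constructor
          · intro hab
            have h5 : (d b).1 ∈ Z := (d b).2
            exact absurd ⟨a, hab⟩ h5
          · intro hab
            exact absurd (hab ▸ b.2) (Set.disjoint_left.1 hdis a.2)) (P := P) (T := T) hRc
        (fun w => hRd w)
      exact hno e he)
    have h2 : Fintype.card Z ≤ n := by simpa using set_fintype_card_le_univ Z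
    have h3 := h1.trans (Nat.mul_le_mul_left C₂ (hf.mono h2))
    have h5 := ncard_edgeSet_le_induce G Z
    rw [Fintype.card_fin] at h5
    have h6 : Zᶜ.ncard ≤ Fintype.card S₁ := by
      rw [hZ, compl_compl, Set.ncard_eq_toFinset_card', Set.toFinset_range]
      exact card_image_le
    have h7 : Zᶜ.ncard * n ≤ Fintype.card S₁ * n := Nat.mul_le_mul_right _ h6
    have h8 : Fintype.card S₁ * n ≤ Fintype.card S₁ * f n := Nat.mul_le_mul_left _ (hf.lin n)
    rw [add_mul]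
    omega

/-- Complete graphs on at most two vertices. -/
theorem rel_clique {W : Type*} {H : SimpleGraph W} {S T : Set W}
    (hT : ∀ a b, H.Adj a b → (a ∈ T ↔ b ∉ T)) (hS : ∀ a ∈ S, ∀ b ∈ S, a ≠ b → H.Adj a b) :
    Rel f H₁ u H₂ v (H.induce S) {w : S | w.1 ∈ T} := by
  classical
  refine ⟨0, fun n G P hA hno => ?_⟩
  by_contra hcon
  have hne : G.edgeSet.Nonempty := by
    rw [Set.nonempty_iff_ne_empty]
    intro h0
    rw [h0, Set.ncard_empty] at hcon
    exact hcon (Nat.zero_le _)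
  obtain ⟨e, he⟩ := hne
  have hpq : ∃ p q, G.Adj p q ∧ p ∈ P := by
    induction e with | _ a b
    have hab : G.Adj a b := he
    by_cases ha : a ∈ P
    · exact ⟨a, b, hab, ha⟩
    · refine ⟨b, a, hab.symm, ?_⟩
      by_contra hb
      exact ha ((hA.1 a b hab).2 hb)
  obtain ⟨p, q, hpq, hp⟩ := hpq
  have hq : q ∉ P := (hA.1 p q hpq).1 hp
  have hne : p ≠ q := hpq.ne
  set g : S → Fin n := fun s => if s.1 ∈ T then p else q with hg
  refine hno ⟨⟨g, ?_⟩, ?_⟩ ?_
  · intro s t hst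
    have h1 := hT s.1 t.1 hst
    by_cases hs : s.1 ∈ T
    · have ht := h1.1 hs
      simp only [hg, if_pos hs, if_neg ht]
      exact hpq
    · have ht : t.1 ∈ T := by
        by_contra ht
        exact hs (h1.2 ht)
      simp only [hg, if_neg hs, if_pos ht]
      exact hpq.symm
  · intro s t hst
    have hst : g s = g t := hst
    by_contra hne'
    have h1 := hT s.1 t.1 (hS s.1 s.2 t.1 t.2 fun h => hne' (Subtype.ext h))
    by_cases hs : s.1 ∈ T
    · have ht := h1.1 hs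
      simp only [hg, if_pos hs, if_neg ht] at hst
      exact hne hst
    · have ht : t.1 ∈ T := by
        by_contra ht
        exact hs (h1.2 ht)
      simp only [hg, if_neg hs, if_pos ht] at hst
      exact hne hst.symm
  · intro s
    show g s ∈ P ↔ s.1 ∈ T
    by_cases hs : s.1 ∈ T
    · simp only [hg, if_pos hs, hp, hs]
    · simp only [hg, if_neg hs, hq, hs]

/-- If all 2-connected blocks of `H[S]` satisfy `Rel`, then so does `H[S]`. -/
theorem rel_of_blocks_aux (hf : Adm f) {W : Type*} [Finite W] (H : SimpleGraph W) {T : Set W}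
    (hT : ∀ a b, H.Adj a b → (a ∈ T ↔ b ∉ T)) :
    ∀ (k : ℕ) (S : Set W), S.ncard = k →
      (∀ B, B ⊆ S → TwoConn H B → (∀ B', B' ⊆ S → TwoConn H B' → B ⊆ B' → B' ⊆ B) →
        Rel f H₁ u H₂ v (H.induce B) {w : B | w.1 ∈ T}) →
      Rel f H₁ u H₂ v (H.induce S) {w : S | w.1 ∈ T} := by
  intro k
  induction k using Nat.strong_induction_on with
  | _ k ih =>
    intro S hSk hyp
    by_cases hsep : ∃ S₁ S₂, Sep H S S₁ S₂
    · have inh : ∀ S₁ S₂, Sep H S S₁ S₂ →
          Rel f H₁ u H₂ v (H.induce S₁) {w : S₁ | w.1 ∈ T} := by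
        intro S₁ S₂ hs
        have hs' := hs
        obtain ⟨hU, hne1, hne2, hsub, hcross⟩ := hs'
        have hS₁ : S₁ ⊆ S := hU ▸ Set.subset_union_left
        have hlt : S₁.ncard < k := by
          rw [← hSk]
          exact Set.ncard_lt_ncard (hS₁.ssubset_of_ne hne1) (Set.toFinite S)
        refine ih _ hlt S₁ rfl ?_
        intro B hB hBc hmax
        refine hyp B (hB.trans hS₁) hBc ?_
        intro B' hB' hB'c hBB'
        rcases hB'c.subset_of_sep hB' hs with h3 | h3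
        · exact hmax B' h3 hB'c hBB'
        · exfalso
          have h4 : B ⊆ S₁ ∩ S₂ := fun b hb => ⟨hB hb, h3 (hBB' hb)⟩
          have h5 : B.ncard ≤ 1 := Set.ncard_le_one_iff_subsingleton.2 (hsub.anti h4)
          have h6 := hBc.1
          omega
      obtain ⟨S₁, S₂, hs⟩ := hsep
      have h1 := inh S₁ S₂ hs
      have h2 := inh S₂ S₁ hs.symm
      obtain ⟨hU, hne1, hne2, hsub, hcross⟩ := hs
      rcases Set.eq_empty_or_nonempty (S₁ ∩ S₂) with h0 | ⟨x, hx⟩
      · refine rel_disjoint hf hU ?_ (Set.disjoint_iff_inter_eq_empty.2 h0) h1 h2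
        intro a ha b hb hab
        rcases hcross a ha b hb hab with h3 | h3
        · exact (h0.subset ⟨ha, h3⟩ : a ∈ (∅ : Set W))
        · exact (h0.subset ⟨h3, hb⟩ : b ∈ (∅ : Set W))
      · exact rel_cut hf hU hcross hx.1 hx.2 (fun a ha1 ha2 => hsub ⟨ha1, ha2⟩ hx) h1 h2
    · rcases le_or_gt 3 S.ncard with h3 | h3
      · exact hyp S subset_rfl (twoConn_of_not_sep h3 hsep) (fun B' hB' _ _ => hB')
      · refine rel_clique hT fun a ha b hb hab => ?_
        by_contra hadj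
        apply hsep
        have hSab : S = {a, b} := by
          refine (Set.eq_of_subset_of_ncard_le ?_ ?_ (Set.toFinite S)).symm
          · rintro y (rfl | rfl)
            · exact ha
            · exact hb
          · rw [Set.ncard_pair hab]
            omega
        refine ⟨{a}, {b}, ?_, ?_, ?_, ?_, ?_⟩
        · rw [hSab]
          rfl
        · intro h
          have : b ∈ ({a} : Set W) := h ▸ hb
          exact hab this.symm
        · intro h
          have : a ∈ ({b} : Set W) := h ▸ ha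
          exact hab this
        · rintro y ⟨hy, -⟩ z ⟨hz, -⟩
          rw [Set.mem_singleton_iff] at hy hz
          rw [hy, hz]
        · intro y hy z hz hyz
          rw [Set.mem_singleton_iff] at hy hz
          subst hy hz
          exact absurd hyz hadj

/-- If all 2-connected blocks of the finite graph `H` satisfy `Rel`, then so does `H`. -/
theorem rel_of_isBlock (hf : Adm f) {W : Type*} [Finite W] (H : SimpleGraph W) {T : Set W}
    (hT : ∀ a b, H.Adj a b → (a ∈ T ↔ b ∉ T))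
    (h : ∀ B, IsBlock H B → Rel f H₁ u H₂ v (H.induce B) {w : B | w.1 ∈ T}) :
    Rel f H₁ u H₂ v H T := by
  obtain ⟨C, hC⟩ := rel_of_blocks_aux (H₁ := H₁) (u := u) (H₂ := H₂) (v := v) hf H hT _ Set.univ
    rfl (fun B _ hB hmax => h B ⟨hB, fun B' hB' hBB' => hmax B' (Set.subset_univ _) hB' hBB'⟩)
  refine ⟨C, fun n G P hA hno => hC n G P hA fun c hR => ?_⟩
  refine hno (c.comp (SimpleGraph.induceUnivIso H).symm.toCopy) fun w => ?_
  exact hR ⟨w, Set.mem_univ w⟩

end Pool.Agent.Lib.H45Glue2
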