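import Pool.Agent.Lib.H45Glue2.Rel2

/-!
# Connected graphs satisfying `Rel`; the bound for the glued graph
-/

namespace Pool.Agent.Lib.H45Glue2

open SimpleGraph Finset Pool.Agent.Lib.Helper15.Glue Pool.Agent.Lib.H45Glue

variable {V₁ V₂ : Type*} {H₁ : SimpleGraph V₁} {u : V₁} {H₂ : SimpleGraph V₂} {v : V₂}
variable {f : ℕ → ℕ}

/-- The side along a walk. -/
lemma side_walk {W : Type*} {H : SimpleGraph W} {T : Set W}
    (hT : ∀ a b, H.Adj a b → (a ∈ T ↔ b ∉ T)) {x y : W} (p : H.Walk x y) :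
    (Odd p.length → (x ∈ T ↔ y ∉ T)) ∧ (Even p.length → (x ∈ T ↔ y ∈ T)) :=
  proper_walk hT (Copy.id H) p

/-- In a connected graph one vertex on the right side is enough. -/
lemma right_of_one {W V : Type*} {H : SimpleGraph W} {G : SimpleGraph V} {P : Set V} {T : Set W}
    (hP : ∀ a b, G.Adj a b → (a ∈ P ↔ b ∉ P)) (hT : ∀ a b, H.Adj a b → (a ∈ T ↔ b ∉ T))
    (hc : H.Preconnected) (c : Copy H G) (r : W) (hr : c r ∈ P ↔ r ∈ T) : Right P T c := by
  intro w
  obtain ⟨p⟩ := hc r w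
  have h1 := proper_walk hP c p
  have h2 := side_walk hT p
  rcases Nat.even_or_odd p.length with h | h
  · rw [← h1.2 h, ← h2.2 h]
    exact hr
  · have h3 := h1.1 h
    have h4 := h2.1 h
    tauto

/-- The asymmetric property gives `Rel`. -/
theorem rel_of_esf {W : Type*} {H : SimpleGraph W} {T : Set W}
    (hT : ∀ a b, H.Adj a b → (a ∈ T ↔ b ∉ T)) (hc : H.Preconnected) (r : W)
    (h : ESF f H r) : Rel f H₁ u H₂ v H T := by
  obtain ⟨C, hC⟩ := h
  refine ⟨C, fun n G P hA hno => ?_⟩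
  by_cases hr : r ∈ T
  · refine hC n G Pᶜ (fun a b hab => ?_) fun c => ?_
    · have := hA.1 a b hab
      simp only [Set.mem_compl_iff]
      tauto
    · intro hcP
      exact hno c (right_of_one hA.1 hT hc c r (by tauto))
  · refine hC n G P hA.1 fun c => ?_
    by_contra hcP
    exact hno c (right_of_one hA.1 hT hc c r (by tauto))

/-- The graph lies in `H₁` on the right side. -/
theorem rel_of_left (hd : ∀ n, extremalNumber n H₁ ≤ f n) {W : Type*} {H : SimpleGraph W}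
    {T : Set W} (hT : ∀ a b, H.Adj a b → (a ∈ T ↔ b ∉ T)) (hc : H.Preconnected)
    (j : Copy H H₁) (b : W) (p : H₁.Walk u (j b)) (hb : b ∉ T ↔ Even p.length) :
    Rel f H₁ u H₂ v H T := by
  classical
  refine ⟨1, fun n G P hA hno => ?_⟩
  rw [one_mul]
  refine le_trans ?_ (hd n)
  have hfree : H₁.Free G := by
    rintro ⟨d⟩
    have h1 := hA.2.1 d
    have h2 := proper_walk hA.1 d p
    refine hno (d.comp j) (right_of_one hA.1 hT hc _ b ?_)
    show d (j b) ∈ P ↔ b ∈ T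
    rcases Nat.even_or_odd p.length with h | h
    · have h3 := h2.2 h
      have h4 := hb.2 h
      tauto
    · have h3 := h2.1 h
      have h4 : ¬ Even p.length := Nat.not_even_iff_odd.2 h
      tauto
  have h1 := card_edgeFinset_le_extremalNumber hfree
  rwa [Fintype.card_fin, ← ncard_edgeSet] at h1

/-- The graph lies in `H₂` on the opposite side. -/
theorem rel_of_right (hd : ∀ n, extremalNumber n H₂ ≤ f n) {W : Type*} {H : SimpleGraph W}
    {T : Set W} (hT : ∀ a b, H.Adj a b → (a ∈ T ↔ b ∉ T)) (hc : H.Preconnected)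
    (j : Copy H H₂) (b : W) (p : H₂.Walk v (j b)) (hb : b ∈ T ↔ Even p.length) :
    Rel f H₁ u H₂ v H T := by
  classical
  refine ⟨1, fun n G P hA hno => ?_⟩
  rw [one_mul]
  refine le_trans ?_ (hd n)
  have hfree : H₂.Free G := by
    rintro ⟨d⟩
    have h1 := hA.2.2 d
    have h2 := proper_walk hA.1 d p
    refine hno (d.comp j) (right_of_one hA.1 hT hc _ b ?_)
    show d (j b) ∈ P ↔ b ∈ T
    rcases Nat.even_or_odd p.length with h | h
    · have h3 := h2.2 h
      have h4 := hb.2 h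
      tauto
    · have h3 := h2.1 h
      have h4 : ¬ Even p.length := Nat.not_even_iff_odd.2 h
      tauto
  have h1 := card_edgeFinset_le_extremalNumber hfree
  rwa [Fintype.card_fin, ← ncard_edgeSet] at h1

/-- The bound for the glued graph. -/
theorem Rel.extremalNumber_glue_le (hf : Adm f) {V₁ V₂ : Type*} [Fintype V₁] [Fintype V₂]
    {H₁ : SimpleGraph V₁} {u : V₁} {H₂ : SimpleGraph V₂} {v : V₂} {T : Set V₂} (hv : v ∉ T)
    (hd₁ : ∀ n, extremalNumber n H₁ ≤ f n) (hd₂ : ∀ n, extremalNumber n H₂ ≤ f n)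
    (h : Rel f H₁ u H₂ v H₂ T) :
    ∃ C : ℕ, ∀ n : ℕ, extremalNumber n (glue H₁ u H₂ v) ≤ C * f n := by
  classical
  obtain ⟨C, hC⟩ := h
  have hz : ∀ n, zStar H₁ u H₂ v n ≤ C * f n := by
    intro n
    rcases Set.eq_empty_or_nonempty {m | ∃ k ≤ n, ∃ (G : SimpleGraph (Fin k))
      (P : Set (Fin k)), Avoids H₁ u H₂ v G P ∧ G.edgeSet.ncard = m} with h0 | h0
    · rw [zStar, h0]
      simp
    · refine csSup_le h0 ?_
      rintro m ⟨k, hk, G, P, hG, rfl⟩
      refine (hC k G P hG fun c hR => ?_).trans (Nat.mul_le_mul_left _ (hf.mono hk))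
      exact hv ((hR v).1 (hG.2.2 c))
  set w₁ := Fintype.card V₁ with hw₁
  set w₂ := Fintype.card V₂ with hw₂
  refine ⟨4 ^ w₁ * (2 + w₁ ^ 2 + w₂ ^ 2 + C) + w₁, fun n => ?_⟩
  rcases Nat.eq_zero_or_pos n with hn0 | hn0
  · subst hn0
    have h9 := extremalNumber_le_sq (glue H₁ u H₂ v) 0
    omega
  have h4 := Pool.Agent.Lib.Helper15.Glue.extremalNumber_glue_le H₁ u H₂ v n
  rw [← hw₁, ← hw₂] at h4
  refine h4.trans ?_
  have hln := hf.lin n
  have h1 := hd₁ n
  have h2 := hd₂ n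
  have h3 := hz n
  generalize extremalNumber n H₁ = x at *
  generalize extremalNumber n H₂ = y at *
  generalize zStar H₁ u H₂ v n = z at *
  generalize f n = g at *
  have h5 : w₁ ^ 2 ≤ w₁ ^ 2 * g := Nat.le_mul_of_pos_right _ (by omega)
  have h6 : w₂ ^ 2 ≤ w₂ ^ 2 * g := Nat.le_mul_of_pos_right _ (by omega)
  have h7 : w₁ * n ≤ w₁ * g := Nat.mul_le_mul_left _ hln
  have h8 : (x + w₁ ^ 2) + (y + w₂ ^ 2) + z ≤ (2 + w₁ ^ 2 + w₂ ^ 2 + C) * g := by
    nlinarith
  calc 4 ^ w₁ * ((x + w₁ ^ 2) + (y + w₂ ^ 2) + z) + w₁ * n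
      ≤ 4 ^ w₁ * ((2 + w₁ ^ 2 + w₂ ^ 2 + C) * g) + w₁ * g :=
        Nat.add_le_add (Nat.mul_le_mul_left _ h8) h7
    _ = _ := by ring

end Pool.Agent.Lib.H45Glue2
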